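import Pool.Agent.Work.MP_81c58b_co.TG.All

set_option autoImplicit false

open Finset

namespace Pool.Agent.Results.MP_81c58b_co.BelowThreeHalves

/-- A disc of the plane, given by its centre `(x, y)` and its radius `r`
(only used with `0 ≤ r`; a disc of radius `0` is a point). -/
@[ext] structure Disc where
  x : ℝ
  y : ℝ
  r : ℝ

/-- The boundary circle of a disc. -/
def Disc.circle (D : Disc) : Set (ℝ × ℝ) :=
  {p | (p.1 - D.x) ^ 2 + (p.2 - D.y) ^ 2 = D.r ^ 2}

/-- Two discs touch if their boundary circles have exactly one point in common. -/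
def Touch (D E : Disc) : Prop := ∃! p : ℝ × ℝ, p ∈ D.circle ∩ E.circle

/-- The number of touching red-blue pairs. -/
noncomputable def touching (R B : Finset Disc) : ℕ :=
  {P : Disc × Disc | P.1 ∈ R ∧ P.2 ∈ B ∧ Touch P.1 P.2}.ncard

/-- No three different discs of `S` touch pairwise in one common point. -/
def NoTriple (S : Set Disc) : Prop :=
  ∀ D ∈ S, ∀ E ∈ S, ∀ F ∈ S, D ≠ E → D ≠ F → E ≠ F → Touch D E → Touch D F → Touch E F →
    D.circle ∩ E.circle ∩ F.circle = ∅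

/-! ### Transfer from the helper files -/

/-- the same disc in the helper files -/
def tr : Disc ≃ Pool.Agent.Work.MP_81c58b_co.TG.Disc where
  toFun D := ⟨D.x, D.y, D.r⟩
  invFun D := ⟨D.x, D.y, D.r⟩
  left_inv _ := rfl
  right_inv _ := rfl

lemma tr_touch (D E : Disc) :
    Pool.Agent.Work.MP_81c58b_co.TG.Touch (tr D) (tr E) ↔ Touch D E := Iff.rfl

lemma tr_touching (R B : Finset Disc) :
    Pool.Agent.Work.MP_81c58b_co.TG.touching (R.map tr.toEmbedding) (B.map tr.toEmbedding)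
      = touching R B := by
  unfold touching Pool.Agent.Work.MP_81c58b_co.TG.touching
  have h : {P : Pool.Agent.Work.MP_81c58b_co.TG.Disc × Pool.Agent.Work.MP_81c58b_co.TG.Disc |
      P.1 ∈ R.map tr.toEmbedding ∧ P.2 ∈ B.map tr.toEmbedding ∧
        Pool.Agent.Work.MP_81c58b_co.TG.Touch P.1 P.2}
      = (Prod.map tr tr) '' {P : Disc × Disc | P.1 ∈ R ∧ P.2 ∈ B ∧ Touch P.1 P.2} := by
    ext P
    constructor
    · rintro ⟨h1, h2, h3⟩
      obtain ⟨D, hD, hD'⟩ := Finset.mem_map.1 h1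
      obtain ⟨E, hE, hE'⟩ := Finset.mem_map.1 h2
      refine ⟨(D, E), ⟨hD, hE, ?_⟩, ?_⟩
      · rw [← hD', ← hE'] at h3
        exact (tr_touch D E).1 h3
      · exact Prod.ext hD' hE'
    · rintro ⟨⟨D, E⟩, ⟨hD, hE, hT⟩, rfl⟩
      exact ⟨Finset.mem_map_of_mem _ hD, Finset.mem_map_of_mem _ hE, (tr_touch D E).2 hT⟩
  rw [h]
  exact Set.ncard_image_of_injective _ (tr.injective.prodMap tr.injective)

lemma tr_noTriple (R B : Finset Disc) (h : NoTriple ((R : Set Disc) ∪ B)) :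
    Pool.Agent.Work.MP_81c58b_co.TG.NoTriple
      (((R.map tr.toEmbedding : Finset Pool.Agent.Work.MP_81c58b_co.TG.Disc) :
        Set Pool.Agent.Work.MP_81c58b_co.TG.Disc) ∪ (B.map tr.toEmbedding :
          Finset Pool.Agent.Work.MP_81c58b_co.TG.Disc)) := by
  have key : ∀ D : Pool.Agent.Work.MP_81c58b_co.TG.Disc,
      D ∈ (((R.map tr.toEmbedding : Finset Pool.Agent.Work.MP_81c58b_co.TG.Disc) :
        Set Pool.Agent.Work.MP_81c58b_co.TG.Disc) ∪ (B.map tr.toEmbedding :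
          Finset Pool.Agent.Work.MP_81c58b_co.TG.Disc)) →
      ∃ D' : Disc, D' ∈ ((R : Set Disc) ∪ B) ∧ tr D' = D := by
    rintro D (hD | hD)
    · obtain ⟨D', h1, h2⟩ := Finset.mem_map.1 (Finset.mem_coe.1 hD)
      exact ⟨D', Or.inl h1, h2⟩
    · obtain ⟨D', h1, h2⟩ := Finset.mem_map.1 (Finset.mem_coe.1 hD)
      exact ⟨D', Or.inr h1, h2⟩
  intro D hD E hE F hF h1 h2 h3 h4 h5 h6
  obtain ⟨D', hD', rfl⟩ := key D hD
  obtain ⟨E', hE', rfl⟩ := key E hE
  obtain ⟨F', hF', rfl⟩ := key F hF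
  exact h D' hD' E' hE' F' hF' (fun e => h1 (by rw [e])) (fun e => h2 (by rw [e]))
    (fun e => h3 (by rw [e])) h4 h5 h6

/-- Two families of `m` and `n` discs in the plane, no three of which touch in one common point,
have `O(M ^ (3/4 + 1/2000) N ^ (3/4 - 3/2000) + m + n)` touching pairs, `M = max m n`,
`N = min m n`; for `m = n` this is `O(n ^ (3/2 - 1/1000))`. -/
theorem result : ∃ C : ℝ, ∀ R B : Finset Disc,
    (∀ D ∈ R, 0 ≤ D.r) → (∀ D ∈ B, 0 ≤ D.r) → NoTriple ((R : Set Disc) ∪ B) →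
    (touching R B : ℝ) ≤ C * ((max R.card B.card : ℝ) ^ ((1501 : ℝ) / 2000) *
      (min R.card B.card : ℝ) ^ ((1497 : ℝ) / 2000) + R.card + B.card) := by
  obtain ⟨C, hC⟩ := Pool.Agent.Work.MP_81c58b_co.TG.final5_all
  refine ⟨C, fun R B hR hB hN => ?_⟩
  have h := hC (R.map tr.toEmbedding) (B.map tr.toEmbedding) ?_ ?_ (tr_noTriple R B hN)
  · rw [tr_touching, Finset.card_map, Finset.card_map] at h
    exact h
  · intro D hD
    obtain ⟨D', h1, rfl⟩ := Finset.mem_map.1 hD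
    exact hR D' h1
  · intro D hD
    obtain ⟨D', h1, rfl⟩ := Finset.mem_map.1 hD
    exact hB D' h1

end Pool.Agent.Results.MP_81c58b_co.BelowThreeHalves
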