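import Pool.Agent.Work.MP_81c58b_co.LG.AllG

set_option autoImplicit false

open Finset

namespace Pool.Agent.Results.MP_81c58b_co.LogarithmExponent

/-- A disc of the plane, given by its centre `(x, y)` and its radius `r`;
a disc of radius `0` is a point. -/
@[ext] structure Disc where
  x : ℝ
  y : ℝ
  r : ℝ

/-- The boundary circle of a disc. -/
def Disc.circle (D : Disc) : Set (ℝ × ℝ) :=
  {p | (p.1 - D.x) ^ 2 + (p.2 - D.y) ^ 2 = D.r ^ 2}

/-- Two discs touch if their boundary circles have exactly one point in common. -/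
def Touch (D E : Disc) : Prop := ∃! p : ℝ × ℝ, p ∈ D.circle ∩ E.circle

/-- The number of touching red-blue pairs. -/
noncomputable def touching (R B : Finset Disc) : ℕ :=
  {P : Disc × Disc | P.1 ∈ R ∧ P.2 ∈ B ∧ Touch P.1 P.2}.ncard

/-! ### Transfer from the helper files -/

/-- the same disc in this file -/
def tr : Pool.Agent.Work.MP_81c58b_co.LG.Disc ≃ Disc where
  toFun D := ⟨D.x, D.y, D.r⟩
  invFun D := ⟨D.x, D.y, D.r⟩
  left_inv _ := rfl
  right_inv _ := rfl

lemma tr_touch (D E : Pool.Agent.Work.MP_81c58b_co.LG.Disc) :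
    Touch (tr D) (tr E) ↔ Pool.Agent.Work.MP_81c58b_co.LG.Touch D E := Iff.rfl

lemma tr_touching (R B : Finset Pool.Agent.Work.MP_81c58b_co.LG.Disc) :
    touching (R.map tr.toEmbedding) (B.map tr.toEmbedding)
      = Pool.Agent.Work.MP_81c58b_co.LG.touching R B := by
  unfold touching Pool.Agent.Work.MP_81c58b_co.LG.touching
  have h : {P : Disc × Disc |
      P.1 ∈ R.map tr.toEmbedding ∧ P.2 ∈ B.map tr.toEmbedding ∧ Touch P.1 P.2}
      = (Prod.map tr tr) '' {P : Pool.Agent.Work.MP_81c58b_co.LG.Disc ×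
        Pool.Agent.Work.MP_81c58b_co.LG.Disc | P.1 ∈ R ∧ P.2 ∈ B ∧
          Pool.Agent.Work.MP_81c58b_co.LG.Touch P.1 P.2} := by
    ext P
    constructor
    · rintro ⟨h1, h2, h3⟩
      obtain ⟨D, hD, hD'⟩ := Finset.mem_map.1 h1
      obtain ⟨E, hE, hE'⟩ := Finset.mem_map.1 h2
      refine ⟨(D, E), ⟨hD, hE, ?_⟩, ?_⟩
      · rw [← hD', ← hE'] at h3
        exact (tr_touch D E).1 h3
      · exact Prod.ext hD' hE'
    · rintro ⟨⟨D, E⟩, ⟨hD, hE, hT⟩, rfl⟩
      exact ⟨Finset.mem_map_of_mem _ hD, Finset.mem_map_of_mem _ hE, (tr_touch D E).2 hT⟩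
  rw [h]
  exact Set.ncard_image_of_injective _ (tr.injective.prodMap tr.injective)

/-- In Q1 with all blue discs points the exponent of the logarithm is at least `7/4`: for every
`k < 7/4` and every `C` there are `m` discs of positive radius and `n` points with more than
`C ((mn)^(2/3) + m + n) (log (m+n+1))^k` incidences of points and boundary circles. -/
theorem result : ∀ C k : ℝ, k < 7 / 4 → ∃ R B : Finset Disc,
    (∀ D ∈ R, 0 < D.r) ∧ (∀ D ∈ B, D.r = 0) ∧
    C * ((R.card * B.card : ℝ) ^ ((2 : ℝ) / 3) + R.card + B.card) *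
      Real.log (R.card + B.card + 1) ^ k < touching R B := by
  intro C k hk
  obtain ⟨R, B, h1, h2, h3⟩ := Pool.Agent.Work.MP_81c58b_co.LG.all_Fa C k hk
  refine ⟨R.map tr.toEmbedding, B.map tr.toEmbedding, ?_, ?_, ?_⟩
  · intro D hD
    obtain ⟨D', hD', rfl⟩ := Finset.mem_map.1 hD
    exact h1 D' hD'
  · intro D hD
    obtain ⟨D', hD', rfl⟩ := Finset.mem_map.1 hD
    exact h2 D' hD'
  · rw [tr_touching, Finset.card_map, Finset.card_map]
    exact h3

end Pool.Agent.Results.MP_81c58b_co.LogarithmExponent
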