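import Pool.Agent.Work.MP_81c58b_co.LG.AllG

set_option autoImplicit false

open Finset

namespace Pool.Agent.Results.MP_81c58b_co.StrictLogarithm

/-- A disc of the plane, given by its centre `(x, y)` and its radius `r`;
a disc of radius `0` is a point. -/
@[ext] structure Disc where
  x : ℝ
  y : ℝ
  r : ℝ

/-- The boundary circle of a disc. -/
def Disc.circle (D : Disc) : Set (ℝ × ℝ) :=
  {p | (p.1 - D.x) ^ 2 + (p.2 - D.y) ^ 2 = D.r ^ 2}

/-- Two discs touch if their boundary circles have exactly one point in common. -/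
def Touch (D E : Disc) : Prop := ∃! p : ℝ × ℝ, p ∈ D.circle ∩ E.circle

/-- The number of touching red-blue pairs. -/
noncomputable def touching (R B : Finset Disc) : ℕ :=
  {P : Disc × Disc | P.1 ∈ R ∧ P.2 ∈ B ∧ Touch P.1 P.2}.ncard

/-- No three different discs of `S` touch pairwise in one common point. -/
def NoTriple (S : Set Disc) : Prop :=
  ∀ D ∈ S, ∀ E ∈ S, ∀ F ∈ S, D ≠ E → D ≠ F → E ≠ F → Touch D E → Touch D F → Touch E F →
    D.circle ∩ E.circle ∩ F.circle = ∅

/-! ### Transfer from the helper files -/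

/-- the same disc in this file -/
def tr : Pool.Agent.Work.MP_81c58b_co.LG.Disc ≃ Disc where
  toFun D := ⟨D.x, D.y, D.r⟩
  invFun D := ⟨D.x, D.y, D.r⟩
  left_inv _ := rfl
  right_inv _ := rfl

lemma tr_touch (D E : Pool.Agent.Work.MP_81c58b_co.LG.Disc) :
    Touch (tr D) (tr E) ↔ Pool.Agent.Work.MP_81c58b_co.LG.Touch D E := Iff.rfl

lemma tr_touching (R B : Finset Pool.Agent.Work.MP_81c58b_co.LG.Disc) :
    touching (R.map tr.toEmbedding) (B.map tr.toEmbedding)
      = Pool.Agent.Work.MP_81c58b_co.LG.touching R B := by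
  unfold touching Pool.Agent.Work.MP_81c58b_co.LG.touching
  have h : {P : Disc × Disc |
      P.1 ∈ R.map tr.toEmbedding ∧ P.2 ∈ B.map tr.toEmbedding ∧ Touch P.1 P.2}
      = (Prod.map tr tr) '' {P : Pool.Agent.Work.MP_81c58b_co.LG.Disc ×
        Pool.Agent.Work.MP_81c58b_co.LG.Disc | P.1 ∈ R ∧ P.2 ∈ B ∧
          Pool.Agent.Work.MP_81c58b_co.LG.Touch P.1 P.2} := by
    ext P
    constructor
    · rintro ⟨h1, h2, h3⟩
      obtain ⟨D, hD, hD'⟩ := Finset.mem_map.1 h1
      obtain ⟨E, hE, hE'⟩ := Finset.mem_map.1 h2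
      refine ⟨(D, E), ⟨hD, hE, ?_⟩, ?_⟩
      · rw [← hD', ← hE'] at h3
        exact (tr_touch D E).1 h3
      · exact Prod.ext hD' hE'
    · rintro ⟨⟨D, E⟩, ⟨hD, hE, hT⟩, rfl⟩
      exact ⟨Finset.mem_map_of_mem _ hD, Finset.mem_map_of_mem _ hE, (tr_touch D E).2 hT⟩
  rw [h]
  exact Set.ncard_image_of_injective _ (tr.injective.prodMap tr.injective)

lemma tr_noTriple (R B : Finset Pool.Agent.Work.MP_81c58b_co.LG.Disc)
    (h : Pool.Agent.Work.MP_81c58b_co.LG.NoTriple
      ((R : Set Pool.Agent.Work.MP_81c58b_co.LG.Disc) ∪ B)) :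
    NoTriple (((R.map tr.toEmbedding : Finset Disc) : Set Disc) ∪
      (B.map tr.toEmbedding : Finset Disc)) := by
  have key : ∀ D : Disc, D ∈ (((R.map tr.toEmbedding : Finset Disc) : Set Disc) ∪
      (B.map tr.toEmbedding : Finset Disc)) →
      ∃ D' : Pool.Agent.Work.MP_81c58b_co.LG.Disc,
        D' ∈ ((R : Set Pool.Agent.Work.MP_81c58b_co.LG.Disc) ∪ B) ∧ tr D' = D := by
    rintro D (hD | hD)
    · obtain ⟨D', h1, h2⟩ := Finset.mem_map.1 (Finset.mem_coe.1 hD)
      exact ⟨D', Or.inl h1, h2⟩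
    · obtain ⟨D', h1, h2⟩ := Finset.mem_map.1 (Finset.mem_coe.1 hD)
      exact ⟨D', Or.inr h1, h2⟩
  intro D hD E hE F hF h1 h2 h3 h4 h5 h6
  obtain ⟨D', hD', rfl⟩ := key D hD
  obtain ⟨E', hE', rfl⟩ := key E hE
  obtain ⟨F', hF', rfl⟩ := key F hF
  exact h D' hD' E' hE' F' hF' (fun e => h1 (by rw [e])) (fun e => h2 (by rw [e]))
    (fun e => h3 (by rw [e])) h4 h5 h6

/-- The strict version of Q1 (no three different discs touch pairwise in one common point) needs
at least the first power of the logarithm, even if all blue discs are points. -/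
theorem result : ∀ C k : ℝ, k < 1 → ∃ R B : Finset Disc,
    (∀ D ∈ R, 0 < D.r) ∧ (∀ D ∈ B, D.r = 0) ∧ NoTriple ((R : Set Disc) ∪ B) ∧
    C * ((R.card * B.card : ℝ) ^ ((2 : ℝ) / 3) + R.card + B.card) *
      Real.log (R.card + B.card + 1) ^ k < touching R B := by
  intro C k hk
  obtain ⟨R, B, h1, h2, h3, h4⟩ := Pool.Agent.Work.MP_81c58b_co.LG.all_Fb C k hk
  refine ⟨R.map tr.toEmbedding, B.map tr.toEmbedding, ?_, ?_, tr_noTriple R B h3, ?_⟩
  · intro D hD
    obtain ⟨D', hD', rfl⟩ := Finset.mem_map.1 hD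
    exact h1 D' hD'
  · intro D hD
    obtain ⟨D', hD', rfl⟩ := Finset.mem_map.1 hD
    exact h2 D' hD'
  · rw [tr_touching, Finset.card_map, Finset.card_map]
    exact h4

end Pool.Agent.Results.MP_81c58b_co.StrictLogarithm
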