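import Mathlib

open Finset

namespace Pool.Agent.Results.MP_81c58b_co.UnbalancedTangencies

/-- A disc of the plane, given by its centre `(x, y)` and its radius `r`
(only used with `0 < r`). -/
@[ext] structure Disc where
  x : ℝ
  y : ℝ
  r : ℝ

/-- The boundary circle of a disc. -/
def Disc.circle (D : Disc) : Set (ℝ × ℝ) :=
  {p | (p.1 - D.x) ^ 2 + (p.2 - D.y) ^ 2 = D.r ^ 2}

/-- The interior of a disc. -/
def Disc.inner (D : Disc) : Set (ℝ × ℝ) :=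
  {p | (p.1 - D.x) ^ 2 + (p.2 - D.y) ^ 2 < D.r ^ 2}

/-- Two discs touch if their boundary circles have exactly one point in common. -/
def Touch (D E : Disc) : Prop := ∃! p : ℝ × ℝ, p ∈ D.circle ∩ E.circle

/-- Two discs touch externally if they touch and their interiors are disjoint. -/
def ExtTouch (D E : Disc) : Prop := Touch D E ∧ D.inner ∩ E.inner = ∅

/-- The number of touching red-blue pairs. -/
noncomputable def touching (R B : Finset Disc) : ℕ :=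
  {P : Disc × Disc | P.1 ∈ R ∧ P.2 ∈ B ∧ Touch P.1 P.2}.ncard

/-- The number of externally touching red-blue pairs. -/
noncomputable def extTouching (R B : Finset Disc) : ℕ :=
  {P : Disc × Disc | P.1 ∈ R ∧ P.2 ∈ B ∧ ExtTouch P.1 P.2}.ncard

/-- All discs have positive radius, no blue disc touches two different red discs
(externally) in one and the same point, and at most `g` blue discs touch a given red disc
(externally) in a given point. -/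
def Robust (g : ℕ) (R B : Finset Disc) : Prop :=
  (∀ D ∈ R, 0 < D.r) ∧ (∀ E ∈ B, 0 < E.r) ∧
  (∀ E ∈ B, ∀ D ∈ R, ∀ D' ∈ R, D ≠ D' → ExtTouch D E → ExtTouch D' E →
    D.circle ∩ D'.circle ∩ E.circle = ∅) ∧
  (∀ D ∈ R, ∀ p : ℝ × ℝ, {E : Disc | E ∈ B ∧ ExtTouch D E ∧ p ∈ D.circle ∩ E.circle}.ncard ≤ g)

/-! ### Tangency of two circles -/

lemma ext_of_dist {D E : Disc} (hD : 0 < D.r) (hE : 0 < E.r)
    (h : (D.x - E.x) ^ 2 + (D.y - E.y) ^ 2 = (D.r + E.r) ^ 2) : ExtTouch D E := by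
  have hs : 0 < D.r + E.r := by positivity
  have hs' : D.r + E.r ≠ 0 := hs.ne'
  refine ⟨⟨((E.r * D.x + D.r * E.x) / (D.r + E.r), (E.r * D.y + D.r * E.y) / (D.r + E.r)),
    ⟨?_, ?_⟩, ?_⟩, ?_⟩
  · show ((E.r * D.x + D.r * E.x) / (D.r + E.r) - D.x) ^ 2 +
      ((E.r * D.y + D.r * E.y) / (D.r + E.r) - D.y) ^ 2 = D.r ^ 2
    have e1 : (E.r * D.x + D.r * E.x) / (D.r + E.r) - D.x
        = - D.r * (D.x - E.x) / (D.r + E.r) := by field_simp; ring
    have e2 : (E.r * D.y + D.r * E.y) / (D.r + E.r) - D.y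
        = - D.r * (D.y - E.y) / (D.r + E.r) := by field_simp; ring
    rw [e1, e2]
    have e3 : (- D.r * (D.x - E.x) / (D.r + E.r)) ^ 2 + (- D.r * (D.y - E.y) / (D.r + E.r)) ^ 2
        = D.r ^ 2 * ((D.x - E.x) ^ 2 + (D.y - E.y) ^ 2) / (D.r + E.r) ^ 2 := by
      field_simp
    rw [e3, h]; field_simp
  · show ((E.r * D.x + D.r * E.x) / (D.r + E.r) - E.x) ^ 2 +
      ((E.r * D.y + D.r * E.y) / (D.r + E.r) - E.y) ^ 2 = E.r ^ 2
    have e1 : (E.r * D.x + D.r * E.x) / (D.r + E.r) - E.x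
        = E.r * (D.x - E.x) / (D.r + E.r) := by field_simp; ring
    have e2 : (E.r * D.y + D.r * E.y) / (D.r + E.r) - E.y
        = E.r * (D.y - E.y) / (D.r + E.r) := by field_simp; ring
    rw [e1, e2]
    have e3 : (E.r * (D.x - E.x) / (D.r + E.r)) ^ 2 + (E.r * (D.y - E.y) / (D.r + E.r)) ^ 2
        = E.r ^ 2 * ((D.x - E.x) ^ 2 + (D.y - E.y) ^ 2) / (D.r + E.r) ^ 2 := by
      field_simp
    rw [e3, h]; field_simp
  · rintro ⟨p, q⟩ ⟨h1, h2⟩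
    have h1' : (p - D.x) ^ 2 + (q - D.y) ^ 2 = D.r ^ 2 := h1
    have h2' : (p - E.x) ^ 2 + (q - E.y) ^ 2 = E.r ^ 2 := h2
    have hS : (E.r * (p - D.x) + D.r * (p - E.x)) ^ 2
        + (E.r * (q - D.y) + D.r * (q - E.y)) ^ 2 = 0 := by
      linear_combination (E.r ^ 2 + D.r * E.r) * h1' + (D.r ^ 2 + D.r * E.r) * h2'
        - D.r * E.r * h
    have hx : E.r * (p - D.x) + D.r * (p - E.x) = 0 := by nlinarith [sq_nonneg (E.r * (p - D.x) + D.r * (p - E.x)), sq_nonneg (E.r * (q - D.y) + D.r * (q - E.y))]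
    have hy : E.r * (q - D.y) + D.r * (q - E.y) = 0 := by nlinarith [sq_nonneg (E.r * (p - D.x) + D.r * (p - E.x)), sq_nonneg (E.r * (q - D.y) + D.r * (q - E.y))]
    ext
    · show p = _
      rw [eq_div_iff hs']; linarith
    · show q = _
      rw [eq_div_iff hs']; linarith
  · rw [Set.eq_empty_iff_forall_notMem]
    rintro ⟨p, q⟩ ⟨h1, h2⟩
    have h1' : (p - D.x) ^ 2 + (q - D.y) ^ 2 < D.r ^ 2 := h1
    have h2' : (p - E.x) ^ 2 + (q - E.y) ^ 2 < E.r ^ 2 := h2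
    have hS : 0 ≤ (E.r * (p - D.x) + D.r * (p - E.x)) ^ 2
        + (E.r * (q - D.y) + D.r * (q - E.y)) ^ 2 := by positivity
    have hS' : (E.r * (p - D.x) + D.r * (p - E.x)) ^ 2
        + (E.r * (q - D.y) + D.r * (q - E.y)) ^ 2
        = (E.r ^ 2 + D.r * E.r) * ((p - D.x) ^ 2 + (q - D.y) ^ 2)
          + (D.r ^ 2 + D.r * E.r) * ((p - E.x) ^ 2 + (q - E.y) ^ 2)
          - D.r * E.r * (D.r + E.r) ^ 2 := by
      linear_combination (- D.r * E.r) * h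
    have k1 : (E.r ^ 2 + D.r * E.r) * ((p - D.x) ^ 2 + (q - D.y) ^ 2)
        < (E.r ^ 2 + D.r * E.r) * D.r ^ 2 := mul_lt_mul_of_pos_left h1' (by positivity)
    have k2 : (D.r ^ 2 + D.r * E.r) * ((p - E.x) ^ 2 + (q - E.y) ^ 2)
        < (D.r ^ 2 + D.r * E.r) * E.r ^ 2 := mul_lt_mul_of_pos_left h2' (by positivity)
    nlinarith

lemma dist_of_ext {D E : Disc} (hD : 0 < D.r) (hE : 0 < E.r) (h : ExtTouch D E) :
    (D.x - E.x) ^ 2 + (D.y - E.y) ^ 2 = (D.r + E.r) ^ 2 := by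
  have hs : 0 < D.r + E.r := by positivity
  obtain ⟨⟨⟨p, q⟩, ⟨h1, h2⟩, -⟩, hdis⟩ := h
  have h1' : (p - D.x) ^ 2 + (q - D.y) ^ 2 = D.r ^ 2 := h1
  have h2' : (p - E.x) ^ 2 + (q - E.y) ^ 2 = E.r ^ 2 := h2
  apply le_antisymm
  · have hS : 0 ≤ (E.r * (p - D.x) + D.r * (p - E.x)) ^ 2
        + (E.r * (q - D.y) + D.r * (q - E.y)) ^ 2 := by positivity
    have hS' : (E.r * (p - D.x) + D.r * (p - E.x)) ^ 2
        + (E.r * (q - D.y) + D.r * (q - E.y)) ^ 2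
        = D.r * E.r * ((D.r + E.r) ^ 2 - ((D.x - E.x) ^ 2 + (D.y - E.y) ^ 2)) := by
      linear_combination (E.r ^ 2 + D.r * E.r) * h1' + (D.r ^ 2 + D.r * E.r) * h2'
    have hp : 0 < D.r * E.r := by positivity
    rw [hS'] at hS
    have := nonneg_of_mul_nonneg_right hS hp
    linarith
  · by_contra hlt
    push Not at hlt
    have hz : (((E.r * D.x + D.r * E.x) / (D.r + E.r), (E.r * D.y + D.r * E.y) / (D.r + E.r)) :
        ℝ × ℝ) ∈ D.inner ∩ E.inner := by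
      have key : ((D.x - E.x) ^ 2 + (D.y - E.y) ^ 2) / (D.r + E.r) ^ 2 < 1 := by
        rw [div_lt_one (by positivity)]; exact hlt
      constructor
      · show ((E.r * D.x + D.r * E.x) / (D.r + E.r) - D.x) ^ 2 +
          ((E.r * D.y + D.r * E.y) / (D.r + E.r) - D.y) ^ 2 < D.r ^ 2
        have e3 : ((E.r * D.x + D.r * E.x) / (D.r + E.r) - D.x) ^ 2 +
          ((E.r * D.y + D.r * E.y) / (D.r + E.r) - D.y) ^ 2
            = D.r ^ 2 * (((D.x - E.x) ^ 2 + (D.y - E.y) ^ 2) / (D.r + E.r) ^ 2) := by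
          field_simp; ring
        rw [e3]
        have : 0 < D.r ^ 2 := by positivity
        nlinarith
      · show ((E.r * D.x + D.r * E.x) / (D.r + E.r) - E.x) ^ 2 +
          ((E.r * D.y + D.r * E.y) / (D.r + E.r) - E.y) ^ 2 < E.r ^ 2
        have e3 : ((E.r * D.x + D.r * E.x) / (D.r + E.r) - E.x) ^ 2 +
          ((E.r * D.y + D.r * E.y) / (D.r + E.r) - E.y) ^ 2
            = E.r ^ 2 * (((D.x - E.x) ^ 2 + (D.y - E.y) ^ 2) / (D.r + E.r) ^ 2) := by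
          field_simp; ring
        rw [e3]
        have : 0 < E.r ^ 2 := by positivity
        nlinarith
    rw [hdis] at hz
    exact hz

/-- The touching point of two externally touching discs. -/
lemma point_of_dist {D E : Disc} {p : ℝ × ℝ}
    (h : (D.x - E.x) ^ 2 + (D.y - E.y) ^ 2 = (D.r + E.r) ^ 2)
    (h1 : p ∈ D.circle) (h2 : p ∈ E.circle) :
    E.r * (p.1 - D.x) + D.r * (p.1 - E.x) = 0 ∧ E.r * (p.2 - D.y) + D.r * (p.2 - E.y) = 0 := by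
  have h1' : (p.1 - D.x) ^ 2 + (p.2 - D.y) ^ 2 = D.r ^ 2 := h1
  have h2' : (p.1 - E.x) ^ 2 + (p.2 - E.y) ^ 2 = E.r ^ 2 := h2
  have hS : (E.r * (p.1 - D.x) + D.r * (p.1 - E.x)) ^ 2
      + (E.r * (p.2 - D.y) + D.r * (p.2 - E.y)) ^ 2 = 0 := by
    linear_combination (E.r ^ 2 + D.r * E.r) * h1' + (D.r ^ 2 + D.r * E.r) * h2'
      - D.r * E.r * h
  constructor
  · nlinarith [sq_nonneg (E.r * (p.1 - D.x) + D.r * (p.1 - E.x)),
      sq_nonneg (E.r * (p.2 - D.y) + D.r * (p.2 - E.y))]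
  · nlinarith [sq_nonneg (E.r * (p.1 - D.x) + D.r * (p.1 - E.x)),
      sq_nonneg (E.r * (p.2 - D.y) + D.r * (p.2 - E.y))]

/-! ### The two families -/

/-- The red disc obtained from the line with parameters `(t, q)`. -/
noncomputable def red (s t q : ℝ) : Disc :=
  ⟨(t ^ 2 - 1) / (2 * q), -t / q, s - (t ^ 2 + 1) / (2 * q)⟩

/-- The blue disc obtained from the parabola `q = a t ^ 2 + b t + e`. -/
noncomputable def blue (s a b e : ℝ) : Disc :=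
  ⟨(e - a) / (2 * (a * e - b ^ 2 / 4)), b / (2 * (a * e - b ^ 2 / 4)),
    (a + e) / (2 * (a * e - b ^ 2 / 4)) - s⟩

lemma dist_identity (s t q a b e : ℝ) (hq : q ≠ 0) (hΔ : a * e - b ^ 2 / 4 ≠ 0) :
    ((red s t q).x - (blue s a b e).x) ^ 2 + ((red s t q).y - (blue s a b e).y) ^ 2
      - ((red s t q).r + (blue s a b e).r) ^ 2
      = ((a * t ^ 2 + b * t + e) / q - 1) / (a * e - b ^ 2 / 4) := by
  simp only [red, blue]
  obtain ⟨Δ, hΔd⟩ : ∃ Δ : ℝ, Δ = a * e - b ^ 2 / 4 := ⟨_, rfl⟩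
  rw [← hΔd] at hΔ ⊢
  have h1 : ((t ^ 2 - 1) / (2 * q) - (e - a) / (2 * Δ)) ^ 2 + (-t / q - b / (2 * Δ)) ^ 2
      - (s - (t ^ 2 + 1) / (2 * q) + ((a + e) / (2 * Δ) - s)) ^ 2
      = (b ^ 2 / 4 - a * e) / Δ ^ 2 + (a * t ^ 2 + b * t + e) / (q * Δ) := by
    field_simp
    ring
  rw [h1]
  have h2 : (b ^ 2 / 4 - a * e) / Δ ^ 2 = - 1 / Δ := by
    have : b ^ 2 / 4 - a * e = - Δ := by rw [hΔd]; ring
    rw [this]; field_simp
  rw [h2]
  field_simp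
  ring

lemma red_inj {s t q t' q' : ℝ} (hq : q ≠ 0) (hq' : q' ≠ 0)
    (h : red s t q = red s t' q') : t = t' ∧ q = q' := by
  have hx := congrArg Disc.x h
  have hy := congrArg Disc.y h
  have hr := congrArg Disc.r h
  simp only [red] at hx hy hr
  have h1 : 1 / q = 1 / q' := by
    have e1 : (t ^ 2 + 1) / (2 * q) - (t ^ 2 - 1) / (2 * q) = 1 / q := by field_simp; ring
    have e2 : (t' ^ 2 + 1) / (2 * q') - (t' ^ 2 - 1) / (2 * q') = 1 / q' := by field_simp; ring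
    rw [← e1, ← e2]; linarith
  have hqq : q = q' := by
    rw [one_div, one_div] at h1
    exact inv_injective h1
  subst hqq
  refine ⟨?_, rfl⟩
  have := (div_left_inj' hq).1 hy
  linarith

lemma blue_inj {s a b e a' b' e' : ℝ} (hΔ : 0 < a * e - b ^ 2 / 4)
    (hΔ' : 0 < a' * e' - b' ^ 2 / 4)
    (h : blue s a b e = blue s a' b' e') : a = a' ∧ b = b' ∧ e = e' := by
  have hx := congrArg Disc.x h
  have hy := congrArg Disc.y h
  have hr := congrArg Disc.r h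
  simp only [blue] at hx hy hr
  obtain ⟨Δ, hΔd⟩ : ∃ Δ : ℝ, Δ = a * e - b ^ 2 / 4 := ⟨_, rfl⟩
  obtain ⟨Δ', hΔd'⟩ : ∃ Δ' : ℝ, Δ' = a' * e' - b' ^ 2 / 4 := ⟨_, rfl⟩
  rw [← hΔd] at hΔ hx hy hr
  rw [← hΔd'] at hΔ' hx hy hr
  have h0 : Δ ≠ 0 := hΔ.ne'
  have h0' : Δ' ≠ 0 := hΔ'.ne'
  have h1 : e / Δ = e' / Δ' := by
    have e1 : (a + e) / (2 * Δ) + (e - a) / (2 * Δ) = e / Δ := by field_simp; ring
    have e2 : (a' + e') / (2 * Δ') + (e' - a') / (2 * Δ') = e' / Δ' := by field_simp; ring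
    rw [← e1, ← e2]; linarith
  have h2 : a / Δ = a' / Δ' := by
    have e1 : (a + e) / (2 * Δ) - (e - a) / (2 * Δ) = a / Δ := by field_simp; ring
    have e2 : (a' + e') / (2 * Δ') - (e' - a') / (2 * Δ') = a' / Δ' := by field_simp; ring
    rw [← e1, ← e2]; linarith
  have h3 : 1 / Δ = 1 / Δ' := by
    have e1 : (a / Δ) * (e / Δ) - (b / (2 * Δ)) ^ 2 = 1 / Δ := by
      have : (a / Δ) * (e / Δ) - (b / (2 * Δ)) ^ 2 = (a * e - b ^ 2 / 4) / Δ ^ 2 := by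
        field_simp
        ring
      rw [this, ← hΔd]; field_simp
    have e2 : (a' / Δ') * (e' / Δ') - (b' / (2 * Δ')) ^ 2 = 1 / Δ' := by
      have : (a' / Δ') * (e' / Δ') - (b' / (2 * Δ')) ^ 2 = (a' * e' - b' ^ 2 / 4) / Δ' ^ 2 := by
        field_simp
        ring
      rw [this, ← hΔd']; field_simp
    rw [← e1, ← e2, h1, h2, hy]
  have h4 : Δ = Δ' := by
    rw [one_div, one_div] at h3
    exact inv_injective h3
  rw [← h4] at h1 h2 hy
  refine ⟨(div_left_inj' h0).1 h2, ?_, (div_left_inj' h0).1 h1⟩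
  have := (div_left_inj' (by positivity : (2 * Δ) ≠ 0)).1 hy
  exact this

/-! ### The grid -/

/-- The Laguerre shift. -/
noncomputable def sh (A K : ℕ) : ℝ := ((K : ℝ) ^ 2 + 1) / (7 * A * K ^ 2)

/-- index set of the blue discs -/
def box (G A K : ℕ) : Finset (ℕ × ℕ × ℕ) := range G ×ˢ range (A * K) ×ˢ range (A * K ^ 2)

/-- the blue disc with index `(i, j, l)` -/
noncomputable def blueOf (A K : ℕ) (u : ℕ × ℕ × ℕ) : Disc :=
  blue (sh A K) ((2 * A + u.1 : ℕ) : ℝ) ((u.2.1 : ℕ) : ℝ) ((2 * A * K ^ 2 + u.2.2 : ℕ) : ℝ)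

/-- the red disc with index `(t, j)` -/
noncomputable def redOf (A K : ℕ) (v : ℕ × ℕ) : Disc :=
  red (sh A K) ((v.1 : ℕ) : ℝ) ((2 * A * v.1 ^ 2 + 2 * A * K ^ 2 + v.2 : ℕ) : ℝ)

open Classical in
/-- the blue family -/
noncomputable def blues (G A K : ℕ) : Finset Disc := (box G A K).image (blueOf A K)

open Classical in
/-- the red family -/
noncomputable def reds (A K : ℕ) : Finset Disc :=
  (Icc 1 K ×ˢ range (3 * A * K ^ 2)).image (redOf A K)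

lemma blue_delta {G A K : ℕ} (hA : 1 ≤ A) (hK : 1 ≤ K) {u : ℕ × ℕ × ℕ}
    (hu : u ∈ box G A K) :
    0 < ((2 * A + u.1 : ℕ) : ℝ) * ((2 * A * K ^ 2 + u.2.2 : ℕ) : ℝ) - ((u.2.1 : ℕ) : ℝ) ^ 2 / 4 := by
  obtain ⟨i, j, l⟩ := u
  simp only [box, mem_product, mem_range] at hu
  obtain ⟨hi, hj, hl⟩ := hu
  have hA' : (1 : ℝ) ≤ A := by exact_mod_cast hA
  have hK' : (1 : ℝ) ≤ K := by exact_mod_cast hK
  have hj' : (j : ℝ) ≤ A * K := by exact_mod_cast hj.le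
  have hi0 : (0 : ℝ) ≤ i := by positivity
  have hl0 : (0 : ℝ) ≤ l := by positivity
  have hj0 : (0 : ℝ) ≤ j := by positivity
  push_cast
  have h1 : (j : ℝ) ^ 2 ≤ (A * K) ^ 2 := by gcongr
  have h2 : (2 * A : ℝ) * (2 * A * K ^ 2) ≤ (2 * A + i) * (2 * A * K ^ 2 + l) := by
    gcongr <;> linarith
  have h3 : (0 : ℝ) < (A * K) ^ 2 := by positivity
  nlinarith

lemma blue_pos {G A K : ℕ} (hA : 1 ≤ A) (hG : G ≤ A) (hK : 1 ≤ K) {u : ℕ × ℕ × ℕ}
    (hu : u ∈ box G A K) :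
    0 < (blueOf A K u).r := by
  have hΔ := blue_delta hA hK hu
  obtain ⟨i, j, l⟩ := u
  simp only [box, mem_product, mem_range] at hu
  obtain ⟨hi, hj, hl⟩ := hu
  simp only [blueOf, blue, sub_pos, sh] at hΔ ⊢
  have hA' : (1 : ℝ) ≤ A := by exact_mod_cast hA
  have hK' : (1 : ℝ) ≤ K := by exact_mod_cast hK
  set a : ℝ := ((2 * A + i : ℕ) : ℝ) with ha
  set e : ℝ := ((2 * A * K ^ 2 + l : ℕ) : ℝ) with he
  have ha1 : a ≤ 3 * A := by
    rw [ha]; push_cast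
    have : (i : ℝ) ≤ A := by exact_mod_cast (hi.le.trans hG)
    linarith
  have he1 : e ≤ 3 * (A * K ^ 2) := by
    rw [he]; push_cast
    have : (l : ℝ) ≤ A * K ^ 2 := by exact_mod_cast hl.le
    linarith
  have ha0 : 0 < a := by rw [ha]; push_cast; positivity
  have he0 : 0 < e := by rw [he]; push_cast; positivity
  rw [div_lt_div_iff₀ (by positivity) (by linarith)]
  have hj0 : (0 : ℝ) ≤ (j : ℝ) ^ 2 := by positivity
  have h1 : ((K : ℝ) ^ 2 + 1) * (2 * (a * e - (j : ℝ) ^ 2 / 4)) ≤ ((K : ℝ) ^ 2 + 1) * (2 * (a * e)) := by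
    gcongr; linarith
  have h2 : ((K : ℝ) ^ 2) * (2 * (a * e)) ≤ 6 * A * K ^ 2 * e := by
    have : a * ((K : ℝ) ^ 2 * e) ≤ 3 * A * ((K : ℝ) ^ 2 * e) := by gcongr
    nlinarith
  have h3 : 2 * (a * e) ≤ 6 * A * K ^ 2 * a := by
    have : a * e ≤ a * (3 * (A * (K : ℝ) ^ 2)) := by gcongr
    nlinarith
  have h4 : 0 < A * (K : ℝ) ^ 2 * (a + e) := by positivity
  nlinarith

lemma red_q_pos {A K t j : ℕ} (hA : 1 ≤ A) (hK : 1 ≤ K) :
    (0 : ℝ) < ((2 * A * t ^ 2 + 2 * A * K ^ 2 + j : ℕ) : ℝ) := by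
  have : 0 < 2 * A * t ^ 2 + 2 * A * K ^ 2 + j := by positivity
  exact_mod_cast this

lemma red_pos {A K t j : ℕ} (hA : 1 ≤ A) (hK : 1 ≤ K) (ht : t ≤ K) :
    0 < (redOf A K (t, j)).r := by
  simp only [redOf, red, sub_pos, sh]
  have hq := red_q_pos (A := A) (K := K) (t := t) (j := j) hA hK
  have hA' : (1 : ℝ) ≤ A := by exact_mod_cast hA
  have hK' : (1 : ℝ) ≤ K := by exact_mod_cast hK
  have ht' : (t : ℝ) ≤ K := by exact_mod_cast ht
  have ht0 : (0 : ℝ) ≤ t := by positivity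
  set q : ℝ := ((2 * A * t ^ 2 + 2 * A * K ^ 2 + j : ℕ) : ℝ) with hqd
  have hq1 : 2 * A * ((t : ℝ) ^ 2 + K ^ 2) ≤ q := by
    rw [hqd]; push_cast
    have : (0 : ℝ) ≤ j := by positivity
    linarith
  rw [div_lt_div_iff₀ (by positivity) (by positivity)]
  have htK : (t : ℝ) ^ 2 ≤ K ^ 2 := by gcongr
  have hK2 : (1 : ℝ) ≤ (K : ℝ) ^ 2 := by nlinarith
  have h1 : ((t : ℝ) ^ 2 + 1) * (2 * K ^ 2) ≤ ((K : ℝ) ^ 2 + 1) * ((t : ℝ) ^ 2 + K ^ 2) := by
    nlinarith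
  have h2 : ((K : ℝ) ^ 2 + 1) * (2 * (2 * A * ((t : ℝ) ^ 2 + K ^ 2))) ≤ ((K : ℝ) ^ 2 + 1) * (2 * q) := by
    gcongr
  have h3 : 4 * A * (((t : ℝ) ^ 2 + 1) * (2 * K ^ 2)) ≤ 4 * A * (((K : ℝ) ^ 2 + 1) * ((t : ℝ) ^ 2 + K ^ 2)) := by
    gcongr
  have h4 : 0 < A * ((t : ℝ) ^ 2 + 1) * K ^ 2 := by positivity
  nlinarith

lemma value_eq (A K t i j l : ℕ) :
    ((2 * A + i : ℕ) : ℝ) * (t : ℝ) ^ 2 + ((j : ℕ) : ℝ) * (t : ℝ) + ((2 * A * K ^ 2 + l : ℕ) : ℝ)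
      = ((2 * A * t ^ 2 + 2 * A * K ^ 2 + (i * t ^ 2 + j * t + l) : ℕ) : ℝ) := by
  push_cast; ring

lemma value_lt {G A K t i j l : ℕ} (hG : G ≤ A) (ht : t ≤ K) (hi : i < G) (hj : j < A * K)
    (hl : l < A * K ^ 2) :
    i * t ^ 2 + j * t + l < 3 * A * K ^ 2 := by
  have h1 : i * t ^ 2 ≤ A * K ^ 2 := Nat.mul_le_mul (hi.le.trans hG) (Nat.pow_le_pow_left ht 2)
  have h2 : j * t ≤ A * K * K := Nat.mul_le_mul hj.le ht
  have h3 : A * K * K = A * K ^ 2 := by ring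
  nlinarith

lemma touch_red_blue {G A K t : ℕ} (hA : 1 ≤ A) (hG : G ≤ A) (hK : 1 ≤ K) (ht : t ≤ K)
    {u : ℕ × ℕ × ℕ} (hu : u ∈ box G A K) :
    ExtTouch (redOf A K (t, u.1 * t ^ 2 + u.2.1 * t + u.2.2)) (blueOf A K u) := by
  apply ext_of_dist (red_pos hA hK ht) (blue_pos hA hG hK hu)
  have hΔ := blue_delta hA hK hu
  have hq := red_q_pos (A := A) (K := K) (t := t) (j := u.1 * t ^ 2 + u.2.1 * t + u.2.2) hA hK
  have h := dist_identity (sh A K) (t : ℝ)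
    ((2 * A * t ^ 2 + 2 * A * K ^ 2 + (u.1 * t ^ 2 + u.2.1 * t + u.2.2) : ℕ) : ℝ)
    ((2 * A + u.1 : ℕ) : ℝ) ((u.2.1 : ℕ) : ℝ) ((2 * A * K ^ 2 + u.2.2 : ℕ) : ℝ) hq.ne' hΔ.ne'
  rw [value_eq, div_self hq.ne', sub_self, zero_div, sub_eq_zero] at h
  exact h

/-- If a red disc and a blue disc touch externally, the point lies on the parabola. -/
lemma value_of_ext {s t q a b e : ℝ} (hq : 0 < q) (hΔ : 0 < a * e - b ^ 2 / 4)
    (h1 : 0 < (red s t q).r) (h3 : 0 < (blue s a b e).r)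
    (hT : ExtTouch (red s t q) (blue s a b e)) : a * t ^ 2 + b * t + e = q := by
  have d1 := dist_of_ext h1 h3 hT
  have i1 := dist_identity s t q a b e hq.ne' hΔ.ne'
  rw [d1, sub_self] at i1
  have := (div_eq_zero_iff.1 i1.symm).resolve_right hΔ.ne'
  have h := sub_eq_zero.1 this
  rwa [div_eq_one_iff_eq hq.ne'] at h

/-- Two discs touching a third one externally in the same point: the difference of the
centres has the length of the difference of the radii. -/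
lemma same_point {D D' E : Disc} (hE : 0 < E.r)
    (d1 : (D.x - E.x) ^ 2 + (D.y - E.y) ^ 2 = (D.r + E.r) ^ 2)
    (d2 : (D'.x - E.x) ^ 2 + (D'.y - E.y) ^ 2 = (D'.r + E.r) ^ 2)
    {p : ℝ × ℝ} (hp : p ∈ D.circle) (hp' : p ∈ D'.circle) (hpE : p ∈ E.circle) :
    (D.x - D'.x) ^ 2 + (D.y - D'.y) ^ 2 = (D.r - D'.r) ^ 2 := by
  obtain ⟨ux, uy⟩ := point_of_dist d1 hp hpE
  obtain ⟨vx, vy⟩ := point_of_dist d2 hp' hpE
  have hE2 : (p.1 - E.x) ^ 2 + (p.2 - E.y) ^ 2 = E.r ^ 2 := hpE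
  have dx : E.r * (D.x - D'.x) = (D.r - D'.r) * (p.1 - E.x) := by linarith
  have dy : E.r * (D.y - D'.y) = (D.r - D'.r) * (p.2 - E.y) := by linarith
  have hE' : E.r ^ 2 ≠ 0 := by positivity
  apply mul_left_cancel₀ hE'
  have : E.r ^ 2 * ((D.x - D'.x) ^ 2 + (D.y - D'.y) ^ 2)
      = (E.r * (D.x - D'.x)) ^ 2 + (E.r * (D.y - D'.y)) ^ 2 := by ring
  rw [this, dx, dy, ← hE2]; ring

/-- Two red discs which touch a blue disc externally in the same point coincide. -/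
lemma robust_aux {s t q t' q' a b e : ℝ} (hq : 0 < q) (hq' : 0 < q')
    (hΔ : 0 < a * e - b ^ 2 / 4)
    (h1 : 0 < (red s t q).r) (h2 : 0 < (red s t' q').r) (h3 : 0 < (blue s a b e).r)
    (hT : ExtTouch (red s t q) (blue s a b e)) (hT' : ExtTouch (red s t' q') (blue s a b e))
    {p : ℝ × ℝ} (hp : p ∈ (red s t q).circle) (hp' : p ∈ (red s t' q').circle)
    (hpE : p ∈ (blue s a b e).circle) : red s t q = red s t' q' := by
  have w1 := value_of_ext hq hΔ h1 h3 hT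
  have w2 := value_of_ext hq' hΔ h2 h3 hT'
  have hdd := same_point h3 (dist_of_ext h1 h3 hT) (dist_of_ext h2 h3 hT') hp hp' hpE
  have htt : t = t' := by
    have hh : (t - t') ^ 2 = 0 := by
      simp only [red] at hdd
      have hq0 := hq.ne'
      have hq0' := hq'.ne'
      field_simp at hdd
      have h4 : (4 * q * q') * (t - t') ^ 2 = 0 := by linear_combination hdd
      have h5 : (4 * q * q') ≠ 0 := by positivity
      exact (mul_eq_zero.1 h4).resolve_left h5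
    have := pow_eq_zero_iff (two_ne_zero) |>.1 hh
    linarith
  subst htt
  have : q = q' := by linarith
  rw [this]

/-- Two blue discs with the same `a` which touch a red disc externally in the same point
coincide. -/
lemma pencil_aux {s t q a b e b' e' : ℝ} (hq : 0 < q)
    (hΔ : 0 < a * e - b ^ 2 / 4) (hΔ' : 0 < a * e' - b' ^ 2 / 4)
    (h1 : 0 < (red s t q).r) (h2 : 0 < (blue s a b e).r) (h3 : 0 < (blue s a b' e').r)
    (hT : ExtTouch (red s t q) (blue s a b e)) (hT' : ExtTouch (red s t q) (blue s a b' e'))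
    {p : ℝ × ℝ} (hp : p ∈ (red s t q).circle) (hp1 : p ∈ (blue s a b e).circle)
    (hp2 : p ∈ (blue s a b' e').circle) : b = b' ∧ e = e' := by
  have w1 := value_of_ext hq hΔ h1 h2 hT
  have w2 := value_of_ext hq hΔ' h1 h3 hT'
  have d1 := dist_of_ext h1 h2 hT
  have d2 := dist_of_ext h1 h3 hT'
  have hdd := same_point (D := blue s a b e) (D' := blue s a b' e') (E := red s t q) h1
    (by rw [← sub_eq_zero] at d1 ⊢; linear_combination d1)
    (by rw [← sub_eq_zero] at d2 ⊢; linear_combination d2) hp1 hp2 hp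
  have hbb : b = b' := by
    have hh : (b - b') ^ 2 = 0 := by
      simp only [blue] at hdd
      obtain ⟨Δ, hΔd⟩ : ∃ Δ : ℝ, Δ = a * e - b ^ 2 / 4 := ⟨_, rfl⟩
      obtain ⟨Δ', hΔd'⟩ : ∃ Δ' : ℝ, Δ' = a * e' - b' ^ 2 / 4 := ⟨_, rfl⟩
      rw [← hΔd] at hΔ hdd
      rw [← hΔd'] at hΔ' hdd
      have g1 := hΔ.ne'
      have g2 := hΔ'.ne'
      have e1 : ((e - a) / (2 * Δ) - (e' - a) / (2 * Δ')) ^ 2 + (b / (2 * Δ) - b' / (2 * Δ')) ^ 2
          - ((a + e) / (2 * Δ) - s - ((a + e') / (2 * Δ') - s)) ^ 2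
          = (b ^ 2 / 4 - a * e) / Δ ^ 2 + (b' ^ 2 / 4 - a * e') / Δ' ^ 2
            + (4 * a * e' + 4 * a * e - 2 * b * b') / (4 * Δ * Δ') := by
        field_simp
        ring
      have e2 : (b ^ 2 / 4 - a * e) / Δ ^ 2 = - 1 / Δ := by
        have : b ^ 2 / 4 - a * e = - Δ := by rw [hΔd]; ring
        rw [this]; field_simp
      have e3 : (b' ^ 2 / 4 - a * e') / Δ' ^ 2 = - 1 / Δ' := by
        have : b' ^ 2 / 4 - a * e' = - Δ' := by rw [hΔd']; ring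
        rw [this]; field_simp
      have e4 : - 1 / Δ + - 1 / Δ' + (4 * a * e' + 4 * a * e - 2 * b * b') / (4 * Δ * Δ')
          = (b - b') ^ 2 / (4 * Δ * Δ') := by
        have k : (4 * a * e' + 4 * a * e - 2 * b * b') = (b - b') ^ 2 + 4 * Δ + 4 * Δ' := by
          rw [hΔd, hΔd']; ring
        rw [k]
        field_simp
        ring
      rw [e2, e3, e4] at e1
      have e5 : (b - b') ^ 2 / (4 * Δ * Δ') = 0 := by
        rw [← e1]; linarith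
      rcases div_eq_zero_iff.1 e5 with h | h
      · exact h
      · exfalso
        have : 0 < 4 * Δ * Δ' := by positivity
        linarith
    have := pow_eq_zero_iff (two_ne_zero) |>.1 hh
    linarith
  subst hbb
  exact ⟨rfl, by linarith⟩

lemma blueOf_inj {G A K : ℕ} (hA : 1 ≤ A) (hK : 1 ≤ K) :
    Set.InjOn (blueOf A K) (box G A K) := by
  intro u hu u' hu' h
  obtain ⟨h1, h2, h3⟩ := blue_inj (blue_delta hA hK hu) (blue_delta hA hK hu') h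
  have k1 : 2 * A + u.1 = 2 * A + u'.1 := by exact_mod_cast h1
  have k2 : u.2.1 = u'.2.1 := by exact_mod_cast h2
  have k3 : 2 * A * K ^ 2 + u.2.2 = 2 * A * K ^ 2 + u'.2.2 := by exact_mod_cast h3
  ext
  · omega
  · exact k2
  · omega

lemma pencil_grid {G A K : ℕ} (hA : 1 ≤ A) (hG : G ≤ A) (hK : 1 ≤ K) {D : Disc}
    (hD : D ∈ reds A K) (p : ℝ × ℝ) :
    {E : Disc | E ∈ blues G A K ∧ ExtTouch D E ∧ p ∈ D.circle ∩ E.circle}.ncard ≤ G := by
  classical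
  simp only [reds, mem_image, mem_product, mem_Icc, mem_range, Prod.exists] at hD
  obtain ⟨t, j, ⟨⟨ht1, ht⟩, hj⟩, rfl⟩ := hD
  set S : Finset (ℕ × ℕ × ℕ) := (box G A K).filter fun u =>
    ExtTouch (redOf A K (t, j)) (blueOf A K u) ∧
      p ∈ (redOf A K (t, j)).circle ∩ (blueOf A K u).circle with hS
  have hsub : {E : Disc | E ∈ blues G A K ∧ ExtTouch (redOf A K (t, j)) E ∧
      p ∈ (redOf A K (t, j)).circle ∩ E.circle} ⊆ ((S.image (blueOf A K) : Finset Disc) : Set Disc) := by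
    rintro E ⟨hE, h1, h2⟩
    simp only [blues, mem_image] at hE
    obtain ⟨u, hu, rfl⟩ := hE
    simp only [coe_image, Set.mem_image, mem_coe]
    exact ⟨u, by rw [hS, mem_filter]; exact ⟨hu, h1, h2⟩, rfl⟩
  have hinj : Set.InjOn (fun u : ℕ × ℕ × ℕ => u.1) (S : Set (ℕ × ℕ × ℕ)) := by
    rintro ⟨i, j1, l1⟩ hu ⟨i', j2, l2⟩ hu' h
    simp only at h
    subst h
    rw [mem_coe, hS, mem_filter] at hu hu'
    obtain ⟨b1, b2, b3⟩ := hu
    obtain ⟨c1, c2, c3⟩ := hu'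
    obtain ⟨r1, r2⟩ := pencil_aux (s := sh A K) (t := ((t : ℕ) : ℝ))
      (q := ((2 * A * t ^ 2 + 2 * A * K ^ 2 + j : ℕ) : ℝ))
      (a := ((2 * A + i : ℕ) : ℝ)) (b := ((j1 : ℕ) : ℝ)) (b' := ((j2 : ℕ) : ℝ))
      (e := ((2 * A * K ^ 2 + l1 : ℕ) : ℝ)) (e' := ((2 * A * K ^ 2 + l2 : ℕ) : ℝ))
      (red_q_pos hA hK) (blue_delta (u := (i, j1, l1)) hA hK b1)
      (blue_delta (u := (i, j2, l2)) hA hK c1)
      (red_pos hA hK ht) (blue_pos hA hG hK b1) (blue_pos hA hG hK c1) b2 c2 b3.1 b3.2 c3.2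
    have k2 : j1 = j2 := by exact_mod_cast r1
    have k3 : 2 * A * K ^ 2 + l1 = 2 * A * K ^ 2 + l2 := by exact_mod_cast r2
    have k4 : l1 = l2 := by omega
    rw [k2, k4]
  have hcard : S.card ≤ G := by
    calc S.card = (S.image (fun u : ℕ × ℕ × ℕ => u.1)).card := (card_image_of_injOn hinj).symm
      _ ≤ (range G).card := by
          apply card_le_card
          intro i hi
          simp only [mem_image] at hi
          obtain ⟨u, hu, rfl⟩ := hi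
          rw [hS, mem_filter] at hu
          have := hu.1
          simp only [box, mem_product, mem_range] at this
          exact mem_range.2 this.1
      _ = G := card_range G
  calc _ ≤ ((S.image (blueOf A K) : Finset Disc) : Set Disc).ncard :=
        Set.ncard_le_ncard hsub (Finset.finite_toSet _)
    _ = (S.image (blueOf A K)).card := Set.ncard_coe_finset _
    _ ≤ S.card := card_image_le
    _ ≤ G := hcard

lemma robust_grid {G A K : ℕ} (hA : 1 ≤ A) (hG : G ≤ A) (hK : 1 ≤ K) :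
    Robust G (reds A K) (blues G A K) := by
  classical
  refine ⟨?_, ?_, ?_, ?_⟩
  · intro D hD
    simp only [reds, mem_image, mem_product, mem_Icc, mem_range, Prod.exists] at hD
    obtain ⟨t, j, ⟨⟨ht1, ht⟩, hj⟩, rfl⟩ := hD
    exact red_pos hA hK ht
  · intro E hE
    simp only [blues, mem_image] at hE
    obtain ⟨u, hu, rfl⟩ := hE
    exact blue_pos hA hG hK hu
  · intro E hE D hD D' hD' hne hT hT'
    simp only [reds, mem_image, mem_product, mem_Icc, mem_range, Prod.exists] at hD hD'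
    obtain ⟨t, j, ⟨⟨ht1, ht⟩, hj⟩, rfl⟩ := hD
    obtain ⟨t', j', ⟨⟨ht1', ht'⟩, hj'⟩, rfl⟩ := hD'
    simp only [blues, mem_image] at hE
    obtain ⟨u, hu, rfl⟩ := hE
    rw [Set.eq_empty_iff_forall_notMem]
    rintro p ⟨⟨hp, hp'⟩, hpE⟩
    apply hne
    exact robust_aux (red_q_pos hA hK) (red_q_pos hA hK) (blue_delta hA hK hu)
      (red_pos hA hK ht) (red_pos hA hK ht') (blue_pos hA hG hK hu) hT hT' hp hp' hpE
  · intro D hD p
    exact pencil_grid hA hG hK hD p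

lemma robust_mono {g g' : ℕ} {R B : Finset Disc} (h : Robust g R B) (hg : g ≤ g') :
    Robust g' R B :=
  ⟨h.1, h.2.1, h.2.2.1, fun D hD p => (h.2.2.2 D hD p).trans hg⟩

lemma card_reds (A K : ℕ) : (reds A K).card ≤ 3 * A * K ^ 3 := by
  classical
  calc (reds A K).card ≤ (Icc 1 K ×ˢ range (3 * A * K ^ 2)).card := card_image_le
    _ = K * (3 * A * K ^ 2) := by simp
    _ = 3 * A * K ^ 3 := by ring

lemma card_blues {G A K : ℕ} (hA : 1 ≤ A) (hK : 1 ≤ K) :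
    (blues G A K).card = G * A ^ 2 * K ^ 3 := by
  classical
  rw [blues, card_image_of_injOn (blueOf_inj hA hK)]
  simp only [box, card_product, card_range]
  ring

lemma finite_pairs (R B : Finset Disc) (P : Disc × Disc → Prop) :
    {Q : Disc × Disc | Q.1 ∈ R ∧ Q.2 ∈ B ∧ P Q}.Finite := by
  apply Set.Finite.subset (R ×ˢ B).finite_toSet
  rintro ⟨x, y⟩ ⟨h1, h2, -⟩
  simp only [coe_product, Set.mem_prod, mem_coe]
  exact ⟨h1, h2⟩

lemma ext_le_touching (R B : Finset Disc) : extTouching R B ≤ touching R B := by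
  apply Set.ncard_le_ncard _ (finite_pairs R B fun P => Touch P.1 P.2)
  rintro ⟨x, y⟩ ⟨h1, h2, h3⟩
  exact ⟨h1, h2, h3.1⟩

lemma many {G A K : ℕ} (hA : 1 ≤ A) (hG : G ≤ A) (hK : 1 ≤ K) :
    G * A ^ 2 * K ^ 4 ≤ extTouching (reds A K) (blues G A K) := by
  classical
  let φ : ℕ × (ℕ × ℕ × ℕ) → Disc × Disc := fun w =>
    (redOf A K (w.1, w.2.1 * w.1 ^ 2 + w.2.2.1 * w.1 + w.2.2.2), blueOf A K w.2)
  have hinj : Set.InjOn φ (Icc 1 K ×ˢ box G A K : Finset _) := by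
    rintro ⟨t, u⟩ h ⟨t', u'⟩ h' heq
    simp only [coe_product, Set.mem_prod, mem_coe] at h h'
    have h2 := congrArg Prod.snd heq
    have hu : u = u' := blueOf_inj hA hK h.2 h'.2 h2
    subst hu
    have h1 := congrArg Prod.fst heq
    simp only [φ, redOf] at h1
    obtain ⟨k1, -⟩ := red_inj (red_q_pos hA hK).ne' (red_q_pos hA hK).ne' h1
    have : t = t' := by exact_mod_cast k1
    rw [this]
  have hsub : (((Icc 1 K ×ˢ box G A K).image φ : Finset (Disc × Disc)) : Set (Disc × Disc)) ⊆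
      {P : Disc × Disc | P.1 ∈ reds A K ∧ P.2 ∈ blues G A K ∧ ExtTouch P.1 P.2} := by
    intro P hP
    simp only [coe_image, Set.mem_image, mem_coe, mem_product, mem_Icc, Prod.exists] at hP
    obtain ⟨t, i, j, l, ⟨⟨ht1, ht⟩, hu⟩, rfl⟩ := hP
    have hu' := hu
    simp only [box, mem_product, mem_range] at hu'
    refine ⟨?_, ?_, touch_red_blue hA hG hK ht hu⟩
    · simp only [reds, mem_image, mem_product, mem_Icc, mem_range]
      exact ⟨(t, i * t ^ 2 + j * t + l), ⟨⟨ht1, ht⟩, value_lt hG ht hu'.1 hu'.2.1 hu'.2.2⟩, rfl⟩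
    · exact mem_image_of_mem _ hu
  have hc : ((Icc 1 K ×ˢ box G A K).image φ).card = G * A ^ 2 * K ^ 4 := by
    rw [card_image_of_injOn hinj]
    simp only [box, card_product, card_range, Nat.card_Icc, Nat.add_sub_cancel]
    ring
  rw [← hc, ← Set.ncard_coe_finset]
  exact Set.ncard_le_ncard hsub (finite_pairs _ _ fun P => ExtTouch P.1 P.2)

/-! ### The numerical part -/

/-- The grid with `A = max 1 ⌊y / 3⌋`, `K = max 1 ⌊x / 2⌋`, `G = min g A`. -/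
lemma choose_grid {x y m n : ℝ} {g : ℕ} (hg : 1 ≤ g) (hx : 1 ≤ x) (hy : (g : ℝ) ≤ y)
    (hm3 : 3 ≤ m) (hm : y * x ^ 3 = m) (hn : g * y ^ 2 * x ^ 3 = n) :
    ∃ G A K : ℕ, G ≤ g ∧ G ≤ A ∧ 1 ≤ A ∧ 1 ≤ K ∧ ((3 * A * K ^ 3 : ℕ) : ℝ) ≤ m ∧
      ((G * A ^ 2 * K ^ 3 : ℕ) : ℝ) ≤ n ∧
      g * y ^ 2 * x ^ 4 ≤ 55296 * ((G * A ^ 2 * K ^ 4 : ℕ) : ℝ) := by
  have hg1 : (1 : ℝ) ≤ g := by exact_mod_cast hg
  have hy1 : 1 ≤ y := hg1.trans hy
  have hx0 : 0 ≤ x := by linarith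
  have hy0 : 0 ≤ y := by linarith
  have hfx : (⌊x / 2⌋₊ : ℝ) ≤ x / 2 := Nat.floor_le (by positivity)
  have hfy : (⌊y / 3⌋₊ : ℝ) ≤ y / 3 := Nat.floor_le (by positivity)
  have hfx' : x / 2 < ⌊x / 2⌋₊ + 1 := Nat.lt_floor_add_one _
  have hfy' : y / 3 < ⌊y / 3⌋₊ + 1 := Nat.lt_floor_add_one _
  have ea : y / 6 ≤ max (1 : ℝ) (⌊y / 3⌋₊ : ℝ) := by
    have a1 := le_max_left (1 : ℝ) (⌊y / 3⌋₊ : ℝ)
    have a2 := le_max_right (1 : ℝ) (⌊y / 3⌋₊ : ℝ)
    linarith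
  refine ⟨min g (max 1 ⌊y / 3⌋₊), max 1 ⌊y / 3⌋₊, max 1 ⌊x / 2⌋₊, min_le_left _ _,
    min_le_right _ _, le_max_left _ _, le_max_left _ _, ?_, ?_, ?_⟩
  · push_cast
    rcases le_or_gt 1 ⌊y / 3⌋₊ with h | h
    · have e1 : max (1 : ℝ) (⌊y / 3⌋₊ : ℝ) = ⌊y / 3⌋₊ := max_eq_right (by exact_mod_cast h)
      have e2 : max (1 : ℝ) (⌊x / 2⌋₊ : ℝ) ≤ x := max_le hx (by linarith)
      have e2' : (0 : ℝ) ≤ max (1 : ℝ) (⌊x / 2⌋₊ : ℝ) := le_trans zero_le_one (le_max_left _ _)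
      rw [e1, ← hm]
      calc 3 * (⌊y / 3⌋₊ : ℝ) * max (1 : ℝ) (⌊x / 2⌋₊ : ℝ) ^ 3
          ≤ 3 * (y / 3) * x ^ 3 := by gcongr
        _ = y * x ^ 3 := by ring
    · have h0 : ⌊y / 3⌋₊ = 0 := by omega
      rw [h0]
      simp only [Nat.cast_zero]
      rw [max_eq_left (zero_le_one : (0 : ℝ) ≤ 1)]
      rcases le_or_gt 1 ⌊x / 2⌋₊ with h' | h'
      · have e1 : max (1 : ℝ) (⌊x / 2⌋₊ : ℝ) = ⌊x / 2⌋₊ := max_eq_right (by exact_mod_cast h')
        rw [e1, ← hm]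
        calc 3 * 1 * (⌊x / 2⌋₊ : ℝ) ^ 3 ≤ 3 * 1 * (x / 2) ^ 3 := by gcongr
          _ ≤ 1 * x ^ 3 := by nlinarith [pow_nonneg hx0 3]
          _ ≤ y * x ^ 3 := by gcongr
      · have h0' : ⌊x / 2⌋₊ = 0 := by omega
        rw [h0']; simp; linarith
  · push_cast
    have e1 : max (1 : ℝ) (⌊y / 3⌋₊ : ℝ) ≤ y := max_le hy1 (by linarith)
    have e2 : max (1 : ℝ) (⌊x / 2⌋₊ : ℝ) ≤ x := max_le hx (by linarith)
    have e1' : (0 : ℝ) ≤ max (1 : ℝ) (⌊y / 3⌋₊ : ℝ) := le_trans zero_le_one (le_max_left _ _)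
    have e2' : (0 : ℝ) ≤ max (1 : ℝ) (⌊x / 2⌋₊ : ℝ) := le_trans zero_le_one (le_max_left _ _)
    have e3 : min (g : ℝ) (max (1 : ℝ) (⌊y / 3⌋₊ : ℝ)) ≤ g := min_le_left _ _
    rw [← hn]
    gcongr
  · push_cast
    have e2 : x / 4 ≤ max (1 : ℝ) (⌊x / 2⌋₊ : ℝ) := by
      have a1 := le_max_left (1 : ℝ) (⌊x / 2⌋₊ : ℝ)
      have a2 := le_max_right (1 : ℝ) (⌊x / 2⌋₊ : ℝ)
      linarith
    have e3 : (g : ℝ) / 6 ≤ min (g : ℝ) (max (1 : ℝ) (⌊y / 3⌋₊ : ℝ)) :=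
      le_min (by linarith) (by linarith)
    calc g * y ^ 2 * x ^ 4 = 55296 * (((g : ℝ) / 6) * (y / 6) ^ 2 * (x / 4) ^ 4) := by ring
      _ ≤ 55296 * (min (g : ℝ) (max (1 : ℝ) (⌊y / 3⌋₊ : ℝ)) *
            max (1 : ℝ) (⌊y / 3⌋₊ : ℝ) ^ 2 * max (1 : ℝ) (⌊x / 2⌋₊ : ℝ) ^ 4) := by
          gcongr

lemma part_one (g m n : ℕ) (hg : 1 ≤ g) (hm : 3 ≤ m) (h1 : g ^ 2 * m ≤ n)
    (h2 : n ≤ g * m ^ 2) :
    ∃ R B : Finset Disc, R.card ≤ m ∧ B.card ≤ n ∧ Robust g R B ∧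
      (1 / 55296 : ℝ) * (g : ℝ) ^ (1 / 3 : ℝ) * ((m : ℝ) * n) ^ (2 / 3 : ℝ)
        ≤ extTouching R B := by
  have hg0 : (0 : ℝ) < g := by exact_mod_cast (by omega : 0 < g)
  have hm0 : (0 : ℝ) < m := by exact_mod_cast (by omega : 0 < m)
  have hn0 : (0 : ℝ) < n := by
    have : 0 < n := lt_of_lt_of_le (by positivity) h1
    exact_mod_cast this
  have hr1 : (g : ℝ) ^ 2 * m ≤ n := by exact_mod_cast h1
  have hr2 : (n : ℝ) ≤ g * (m : ℝ) ^ 2 := by exact_mod_cast h2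
  set x : ℝ := (g * (m : ℝ) ^ 2 / n) ^ (1 / 3 : ℝ) with hx
  set y : ℝ := n / (g * m) with hy
  have hb : 1 ≤ g * (m : ℝ) ^ 2 / n := by rw [le_div_iff₀ hn0]; linarith
  have hx1 : 1 ≤ x := Real.one_le_rpow hb (by norm_num)
  have hx3 : x ^ 3 = g * (m : ℝ) ^ 2 / n := by
    rw [hx, ← Real.rpow_natCast, ← Real.rpow_mul (by positivity)]; norm_num
  have hy1 : (g : ℝ) ≤ y := by
    rw [hy, le_div_iff₀ (by positivity)]; nlinarith
  have hm' : y * x ^ 3 = m := by rw [hx3, hy]; field_simp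
  have hn' : g * y ^ 2 * x ^ 3 = n := by rw [hx3, hy]; field_simp
  obtain ⟨G, A, K, hGg, hGA, hA, hK, k1, k2, k3⟩ := choose_grid (m := (m : ℝ)) (n := (n : ℝ))
    hg hx1 hy1 (by exact_mod_cast hm) hm' hn'
  refine ⟨reds A K, blues G A K, ?_, ?_, robust_mono (robust_grid hA hGA hK) hGg, ?_⟩
  · have h1' : 3 * A * K ^ 3 ≤ m := by exact_mod_cast k1
    exact (card_reds A K).trans h1'
  · rw [card_blues hA hK]; exact_mod_cast k2
  · have h5 : ((G * A ^ 2 * K ^ 4 : ℕ) : ℝ) ≤ extTouching (reds A K) (blues G A K) := by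
      exact_mod_cast many hA hGA hK
    have h6 : (g : ℝ) ^ (1 / 3 : ℝ) * ((m : ℝ) * n) ^ (2 / 3 : ℝ) = g * y ^ 2 * x ^ 4 := by
      have hy0 : 0 < y := lt_of_lt_of_le hg0 hy1
      have hx0 : 0 < x := by linarith
      have e1 : (m : ℝ) * n = g * (y * x ^ 2) ^ 3 := by
        rw [← hm', ← hn']; ring
      rw [e1, Real.mul_rpow hg0.le (by positivity)]
      have e2 : (((y * x ^ 2) ^ 3 : ℝ)) ^ (2 / 3 : ℝ) = (y * x ^ 2) ^ 2 := by
        rw [← Real.rpow_natCast, ← Real.rpow_mul (by positivity), ← Real.rpow_natCast]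
        norm_num
      have e3 : (g : ℝ) ^ (1 / 3 : ℝ) * (g : ℝ) ^ (2 / 3 : ℝ) = g := by
        rw [← Real.rpow_add hg0]; norm_num
      rw [e2, ← mul_assoc, e3]; ring
    calc (1 / 55296 : ℝ) * (g : ℝ) ^ (1 / 3 : ℝ) * ((m : ℝ) * n) ^ (2 / 3 : ℝ)
        = (1 / 55296 : ℝ) * ((g : ℝ) ^ (1 / 3 : ℝ) * ((m : ℝ) * n) ^ (2 / 3 : ℝ)) := by ring
      _ = (1 / 55296 : ℝ) * (g * y ^ 2 * x ^ 4) := by rw [h6]
      _ ≤ ((G * A ^ 2 * K ^ 4 : ℕ) : ℝ) := by linarith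
      _ ≤ _ := h5

lemma tendsto_log_aux (C k : ℝ) (p : ℕ) (hp : 1 ≤ p) :
    ∀ᶠ M : ℕ in Filter.atTop, C * 7 * Real.log (5 * (M : ℝ) ^ p) ^ k < M := by
  have h1 : (fun x : ℝ => Real.log x ^ k) =o[Filter.atTop] fun x => x ^ (1 / (2 * p) : ℝ) :=
    isLittleO_log_rpow_rpow_atTop k (by positivity)
  have h2 : Filter.Tendsto (fun M : ℕ => 5 * (M : ℝ) ^ p) Filter.atTop Filter.atTop := by
    apply Filter.Tendsto.const_mul_atTop (by norm_num)
    exact (Filter.tendsto_pow_atTop (by omega)).comp tendsto_natCast_atTop_atTop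
  have h3 := h1.comp_tendsto h2
  have h4 := h3.def (c := 1 / (|C| * 7 * 2 + 1)) (by positivity)
  filter_upwards [h4, Filter.eventually_ge_atTop 2] with M hM hM2
  have hM2' : (2 : ℝ) ≤ M := by exact_mod_cast hM2
  have hp' : (1 : ℝ) ≤ p := by exact_mod_cast hp
  simp only [Function.comp, Real.norm_eq_abs] at hM
  have e1 : |(5 * (M : ℝ) ^ p) ^ (1 / (2 * p) : ℝ)| ≤ 2 * (M : ℝ) := by
    rw [abs_of_nonneg (by positivity)]
    have e0 : (5 * (M : ℝ) ^ p) ≤ (2 * (M : ℝ)) ^ ((2 * p : ℕ) : ℝ) := by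
      rw [Real.rpow_natCast]
      have t1 : (2 : ℝ) ≤ (M : ℝ) ^ p := by
        calc (2 : ℝ) ≤ M := hM2'
          _ = (M : ℝ) ^ 1 := (pow_one _).symm
          _ ≤ (M : ℝ) ^ p := pow_le_pow_right₀ (by linarith) hp
      have t2 : (4 : ℝ) ≤ 4 ^ p := by
        calc (4 : ℝ) = 4 ^ 1 := by norm_num
          _ ≤ 4 ^ p := pow_le_pow_right₀ (by norm_num) hp
      have e00 : (2 * (M : ℝ)) ^ (2 * p) = 4 ^ p * (M : ℝ) ^ p * (M : ℝ) ^ p := by
        have q1 : (2 * (M : ℝ)) ^ 2 = 4 * ((M : ℝ) * M) := by ring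
        rw [pow_mul, q1, mul_pow, mul_pow, mul_assoc]
      rw [e00]
      have t3 : (5 : ℝ) ≤ 4 ^ p * (M : ℝ) ^ p := by nlinarith
      have h12 : (0 : ℝ) ≤ (M : ℝ) ^ p := by positivity
      exact mul_le_mul_of_nonneg_right t3 h12
    calc (5 * (M : ℝ) ^ p) ^ (1 / (2 * p) : ℝ)
        ≤ ((2 * (M : ℝ)) ^ ((2 * p : ℕ) : ℝ)) ^ (1 / (2 * p) : ℝ) :=
          Real.rpow_le_rpow (by positivity) e0 (by positivity)
      _ = 2 * (M : ℝ) := by
          rw [← Real.rpow_mul (by positivity)]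
          push_cast
          rw [mul_one_div_cancel (by positivity), Real.rpow_one]
  have e2 : |Real.log (5 * (M : ℝ) ^ p) ^ k| ≤ 1 / (|C| * 7 * 2 + 1) * (2 * (M : ℝ)) :=
    hM.trans (by gcongr)
  have hC : 0 ≤ |C| := abs_nonneg C
  calc C * 7 * Real.log (5 * (M : ℝ) ^ p) ^ k
      ≤ |C * 7 * Real.log (5 * (M : ℝ) ^ p) ^ k| := le_abs_self _
    _ = |C| * 7 * |Real.log (5 * (M : ℝ) ^ p) ^ k| := by
        rw [abs_mul, abs_mul]; norm_num
    _ ≤ |C| * 7 * (1 / (|C| * 7 * 2 + 1) * (2 * (M : ℝ))) := by gcongr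
    _ = (|C| * 7 * 2) / (|C| * 7 * 2 + 1) * M := by ring
    _ < 1 * M := by
        gcongr
        rw [div_lt_one (by positivity)]; linarith
    _ = M := one_mul _

lemma one_lt_log_three : (1 : ℝ) < Real.log 3 := by
  rw [Real.lt_log_iff_exp_lt (by norm_num)]
  exact lt_trans Real.exp_one_lt_d9 (by norm_num)

/-- The failure of the bound, with at most `(m + n) ^ δ` blue discs per contact point:
`G = M ^ 3`, `K = M ^ (3 j)`, `A = K ^ 3`. -/
lemma part_two (C k δ : ℝ) (hδ : 0 < δ) :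
    ∃ (g : ℕ) (R B : Finset Disc), R.Nonempty ∧ B.Nonempty ∧
      (g : ℝ) ≤ ((R.card : ℝ) + B.card) ^ δ ∧ Robust g R B ∧
      C * (((R.card : ℝ) * B.card) ^ (2 / 3 : ℝ) + R.card + B.card)
        * Real.log (R.card + B.card + 1) ^ k < extTouching R B := by
  obtain ⟨j, hj⟩ : ∃ j : ℕ, 1 / δ ≤ j := exists_nat_ge _
  have hj1 : 1 ≤ j := by
    by_contra h
    have : j = 0 := by omega
    rw [this] at hj
    have : 0 < 1 / δ := by positivity
    push_cast at hj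
    linarith
  obtain ⟨M, hM1, hM2⟩ := ((tendsto_log_aux |C| |k| (3 + 27 * j) (by omega)).and
    (Filter.eventually_ge_atTop 1)).exists
  set K : ℕ := M ^ (3 * j) with hKdef
  have hK : 1 ≤ K := Nat.one_le_pow _ _ hM2
  have hA : 1 ≤ K ^ 3 := Nat.one_le_pow _ _ hK
  have hMK : M ^ 3 ≤ K := by
    rw [hKdef]; exact Nat.pow_le_pow_right hM2 (by omega)
  have hGA : M ^ 3 ≤ K ^ 3 := hMK.trans (by
    calc K = K ^ 1 := (pow_one K).symm
      _ ≤ K ^ 3 := Nat.pow_le_pow_right hK (by norm_num))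
  have hKr : (1 : ℝ) ≤ K := by exact_mod_cast hK
  have hMr : (1 : ℝ) ≤ M := by exact_mod_cast hM2
  have hMKr : (M : ℝ) ^ 3 ≤ K := by exact_mod_cast hMK
  have hB : (blues (M ^ 3) (K ^ 3) K).card = M ^ 3 * K ^ 9 := by rw [card_blues hA hK]; ring
  have hR : (reds (K ^ 3) K).card ≤ 3 * K ^ 6 := by
    have := card_reds (K ^ 3) K
    calc (reds (K ^ 3) K).card ≤ 3 * K ^ 3 * K ^ 3 := this
      _ = 3 * K ^ 6 := by ring
  have hT : M ^ 3 * K ^ 10 ≤ extTouching (reds (K ^ 3) K) (blues (M ^ 3) (K ^ 3) K) := by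
    have := many hA hGA hK
    calc M ^ 3 * K ^ 10 = M ^ 3 * (K ^ 3) ^ 2 * K ^ 4 := by ring
      _ ≤ _ := this
  have hBn : (blues (M ^ 3) (K ^ 3) K).Nonempty := by
    rw [← Finset.card_pos, hB]; positivity
  have hRn : (reds (K ^ 3) K).Nonempty := by
    classical
    rw [reds, Finset.image_nonempty]
    exact ⟨(1, 0), by simp only [mem_product, mem_Icc, mem_range]; exact ⟨⟨le_refl _, hK⟩, by positivity⟩⟩
  refine ⟨M ^ 3, reds (K ^ 3) K, blues (M ^ 3) (K ^ 3) K, hRn, hBn, ?_,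
    robust_grid hA hGA hK, ?_⟩
  · -- the multiplicity
    rw [hB]
    push_cast
    have hr0 : (0 : ℝ) ≤ ((reds (K ^ 3) K).card : ℝ) := by positivity
    have hdj : 1 ≤ δ * j := by
      rw [div_le_iff₀ hδ] at hj; linarith
    have hpos : (1 : ℝ) ≤ (M : ℝ) ^ (3 * j) := one_le_pow₀ hMr
    calc (M : ℝ) ^ 3 = (M : ℝ) ^ (3 : ℝ) := by
          rw [← Real.rpow_natCast]; norm_num
      _ ≤ (M : ℝ) ^ ((3 * j : ℝ) * δ) := by
          apply Real.rpow_le_rpow_of_exponent_le hMr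
          nlinarith
      _ = ((M : ℝ) ^ (3 * j)) ^ δ := by
          rw [Real.rpow_mul (by positivity), ← Real.rpow_natCast]; push_cast; rfl
      _ ≤ (((reds (K ^ 3) K).card : ℝ) + (M : ℝ) ^ 3 * (K : ℝ) ^ 9) ^ δ := by
          apply Real.rpow_le_rpow (by positivity) _ hδ.le
          have hKM : (K : ℝ) = (M : ℝ) ^ (3 * j) := by rw [hKdef]; push_cast; rfl
          rw [← hKM]
          have i1 : (K : ℝ) ≤ (K : ℝ) ^ 9 := by
            calc (K : ℝ) = (K : ℝ) ^ 1 := (pow_one _).symm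
              _ ≤ (K : ℝ) ^ 9 := pow_le_pow_right₀ hKr (by norm_num)
          have i2 : (1 : ℝ) ≤ (M : ℝ) ^ 3 := one_le_pow₀ hMr
          have i3 : (0 : ℝ) ≤ (K : ℝ) ^ 9 := by positivity
          nlinarith
  · set R := reds (K ^ 3) K with hRdef
    set B := blues (M ^ 3) (K ^ 3) K with hBdef
    have r1 : (1 : ℝ) ≤ R.card := by exact_mod_cast Finset.card_pos.2 hRn
    have r2 : (R.card : ℝ) ≤ 3 * (K : ℝ) ^ 6 := by exact_mod_cast hR
    have b1 : (B.card : ℝ) = (M : ℝ) ^ 3 * (K : ℝ) ^ 9 := by rw [hB]; push_cast; ring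
    have t1 : (M : ℝ) ^ 3 * (K : ℝ) ^ 10 ≤ (extTouching R B : ℝ) := by exact_mod_cast hT
    have hMsq : (1 : ℝ) ≤ (M : ℝ) ^ 2 := one_le_pow₀ hMr
    have hMcu : (1 : ℝ) ≤ (M : ℝ) ^ 3 := one_le_pow₀ hMr
    have k6 : (K : ℝ) ^ 6 ≤ (K : ℝ) ^ 9 := pow_le_pow_right₀ hKr (by norm_num)
    have k610 : (K : ℝ) ^ 6 ≤ (K : ℝ) ^ 10 := pow_le_pow_right₀ hKr (by norm_num)
    have k9 : (1 : ℝ) ≤ (K : ℝ) ^ 9 := one_le_pow₀ hKr
    have k10 : (0 : ℝ) < (K : ℝ) ^ 10 := by positivity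
    have hb9 : (K : ℝ) ^ 9 ≤ (M : ℝ) ^ 3 * (K : ℝ) ^ 9 := by nlinarith
    have hp : ((R.card : ℝ) * B.card) ^ (2 / 3 : ℝ) ≤ 3 * ((M : ℝ) ^ 2 * (K : ℝ) ^ 10) := by
      have e1 : (R.card : ℝ) * B.card ≤ 3 * ((M : ℝ) * (K : ℝ) ^ 5) ^ 3 := by
        rw [b1]
        calc (R.card : ℝ) * ((M : ℝ) ^ 3 * (K : ℝ) ^ 9)
            ≤ 3 * (K : ℝ) ^ 6 * ((M : ℝ) ^ 3 * (K : ℝ) ^ 9) := by gcongr
          _ = 3 * ((M : ℝ) * (K : ℝ) ^ 5) ^ 3 := by ring
      calc ((R.card : ℝ) * B.card) ^ (2 / 3 : ℝ)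
          ≤ (3 * ((M : ℝ) * (K : ℝ) ^ 5) ^ 3) ^ (2 / 3 : ℝ) :=
            Real.rpow_le_rpow (by positivity) e1 (by norm_num)
        _ = 3 ^ (2 / 3 : ℝ) * (((M : ℝ) * (K : ℝ) ^ 5) ^ 3) ^ (2 / 3 : ℝ) := by
            rw [Real.mul_rpow (by norm_num) (by positivity)]
        _ ≤ 3 ^ (1 : ℝ) * ((M : ℝ) ^ 2 * (K : ℝ) ^ 10) := by
            have e2 : (((M : ℝ) * (K : ℝ) ^ 5) ^ 3) ^ (2 / 3 : ℝ) = ((M : ℝ) ^ 2 * (K : ℝ) ^ 10) := by
              rw [← Real.rpow_natCast, ← Real.rpow_mul (by positivity)]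
              have : (((3 : ℕ) : ℝ) * (2 / 3 : ℝ)) = ((2 : ℕ) : ℝ) := by norm_num
              rw [this, Real.rpow_natCast]; ring
            rw [e2]
            gcongr
            · norm_num
            · norm_num
        _ = 3 * ((M : ℝ) ^ 2 * (K : ℝ) ^ 10) := by rw [Real.rpow_one]
    have hR10 : (R.card : ℝ) ≤ 3 * ((M : ℝ) ^ 2 * (K : ℝ) ^ 10) := by nlinarith
    have hB10 : (B.card : ℝ) ≤ (M : ℝ) ^ 2 * (K : ℝ) ^ 10 := by
      rw [b1]
      have hMK' : (M : ℝ) ≤ K := by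
        calc (M : ℝ) = (M : ℝ) ^ 1 := (pow_one _).symm
          _ ≤ (M : ℝ) ^ 3 := pow_le_pow_right₀ hMr (by norm_num)
          _ ≤ K := hMKr
      calc (M : ℝ) ^ 3 * (K : ℝ) ^ 9 = (M : ℝ) ^ 2 * (M : ℝ) * (K : ℝ) ^ 9 := by ring
        _ ≤ (M : ℝ) ^ 2 * (K : ℝ) * (K : ℝ) ^ 9 := by gcongr
        _ = (M : ℝ) ^ 2 * (K : ℝ) ^ 10 := by ring
    have hsum : ((R.card : ℝ) * B.card) ^ (2 / 3 : ℝ) + R.card + B.card
        ≤ 7 * ((M : ℝ) ^ 2 * (K : ℝ) ^ 10) := by linarith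
    have hL1 : (1 : ℝ) ≤ Real.log (R.card + B.card + 1) := by
      apply le_trans one_lt_log_three.le
      apply Real.log_le_log (by norm_num)
      rw [b1]; linarith
    have hL2 : Real.log (R.card + B.card + 1) ≤ Real.log (5 * (M : ℝ) ^ (3 + 27 * j)) := by
      apply Real.log_le_log (by positivity)
      have e : (M : ℝ) ^ (3 + 27 * j) = (M : ℝ) ^ 3 * (K : ℝ) ^ 9 := by
        rw [hKdef]; push_cast; rw [← pow_mul, ← pow_add]; congr 1; ring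
      rw [e, b1]; linarith
    have hlog : Real.log (R.card + B.card + 1) ^ k
        ≤ Real.log (5 * (M : ℝ) ^ (3 + 27 * j)) ^ |k| := by
      calc Real.log (R.card + B.card + 1) ^ k ≤ Real.log (R.card + B.card + 1) ^ |k| :=
            Real.rpow_le_rpow_of_exponent_le hL1 (le_abs_self k)
        _ ≤ Real.log (5 * (M : ℝ) ^ (3 + 27 * j)) ^ |k| :=
            Real.rpow_le_rpow (by linarith) hL2 (abs_nonneg k)
    have hlog0 : 0 ≤ Real.log (R.card + B.card + 1) ^ k := Real.rpow_nonneg (by linarith) _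
    have hsum0 : 0 ≤ ((R.card : ℝ) * B.card) ^ (2 / 3 : ℝ) + R.card + B.card := by positivity
    calc C * (((R.card : ℝ) * B.card) ^ (2 / 3 : ℝ) + R.card + B.card)
          * Real.log (R.card + B.card + 1) ^ k
        ≤ |C| * (((R.card : ℝ) * B.card) ^ (2 / 3 : ℝ) + R.card + B.card)
          * Real.log (R.card + B.card + 1) ^ k := by
          gcongr; exact le_abs_self C
      _ ≤ |C| * (7 * ((M : ℝ) ^ 2 * (K : ℝ) ^ 10))
          * Real.log (5 * (M : ℝ) ^ (3 + 27 * j)) ^ |k| := by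
          have := abs_nonneg C
          gcongr
      _ = (|C| * 7 * Real.log (5 * (M : ℝ) ^ (3 + 27 * j)) ^ |k|)
          * ((M : ℝ) ^ 2 * (K : ℝ) ^ 10) := by ring
      _ < M * ((M : ℝ) ^ 2 * (K : ℝ) ^ 10) := by
          have hM0 : (0 : ℝ) < (M : ℝ) ^ 2 := by positivity
          gcongr
      _ = (M : ℝ) ^ 3 * (K : ℝ) ^ 10 := by ring
      _ ≤ extTouching R B := t1

theorem result :
    (∃ c : ℝ, 0 < c ∧ ∀ g m n : ℕ, 1 ≤ g → 3 ≤ m → g ^ 2 * m ≤ n → n ≤ g * m ^ 2 →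
      ∃ R B : Finset Disc, R.card ≤ m ∧ B.card ≤ n ∧ Robust g R B ∧
        c * (g : ℝ) ^ (1 / 3 : ℝ) * ((m : ℝ) * n) ^ (2 / 3 : ℝ) ≤ extTouching R B) ∧
    (∀ C k δ : ℝ, 0 < δ → ∃ (g : ℕ) (R B : Finset Disc), R.Nonempty ∧ B.Nonempty ∧
      (g : ℝ) ≤ ((R.card : ℝ) + B.card) ^ δ ∧ Robust g R B ∧
      C * (((R.card : ℝ) * B.card) ^ (2 / 3 : ℝ) + R.card + B.card)
        * Real.log (R.card + B.card + 1) ^ k < extTouching R B ∧
      extTouching R B ≤ touching R B) := by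
  refine ⟨⟨1 / 55296, by norm_num, fun g m n h0 h1 h2 h3 => part_one g m n h0 h1 h2 h3⟩,
    fun C k δ hδ => ?_⟩
  obtain ⟨g, R, B, h1, h2, h3, h4, h5⟩ := part_two C k δ hδ
  exact ⟨g, R, B, h1, h2, h3, h4, h5, ext_le_touching R B⟩

end Pool.Agent.Results.MP_81c58b_co.UnbalancedTangencies
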